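import Mathlib
import Pool.Agent.Helper35.HG.StA
import Pool.Agent.Helper94.HC.M_SQB

/-! Project HG, module SQF: the invariants in a frame. -/

set_option autoImplicit false

namespace Helper70.HG

open Helper35.HG Helper35.HC Helper35.HSF Helper35.MS Helper35.PI Helper35.PI2 Helper32.CL
open scoped BigOperators

variable {n N m : ℕ}

theorem comm5 (G : Fin n → Fin n → Fin n → Fin n → Fin m → ℝ) :
    (∑ i, ∑ j, ∑ k, ∑ l, ∑ α, G i j k l α) = ∑ α, ∑ i, ∑ j, ∑ k, ∑ l, G i j k l α := by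
  have e1 : ∀ i j k, (∑ l, ∑ α, G i j k l α) = ∑ α, ∑ l, G i j k l α :=
    fun i j k => Finset.sum_comm
  have e2 : ∀ i j, (∑ k, ∑ α, ∑ l, G i j k l α) = ∑ α, ∑ k, ∑ l, G i j k l α :=
    fun i j => Finset.sum_comm
  have e3 : ∀ i, (∑ j, ∑ α, ∑ k, ∑ l, G i j k l α) = ∑ α, ∑ j, ∑ k, ∑ l, G i j k l α :=
    fun i => Finset.sum_comm
  simp only [e1, e2, e3]
  exact Finset.sum_comm

theorem Sq_gen (X : Fin m → Fin n → Fin n → ℝ) (hX : ∀ α, SymS (X α))
    (a : Fin n → Fin n → EE N)
    (ha : ∀ i j k l, (inner ℝ (a i j) (a k l) : ℝ) = ∑ α, X α i j * X α k l) :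
    Sq a = ∑ α, ∑ β, ((∑ i, ∑ j, X α i j * X β i j) ^ 2 + cq (X α) (X β)) := by
  unfold Sq
  simp only [ha]
  have h : ∀ i j k l : Fin n,
      (∑ α, X α i j * X α k l) ^ 2
        + 2 * ((∑ α, X α i j * X α j k) * (∑ α, X α k l * X α l i)
          - (∑ α, X α i j * X α k l) * (∑ α, X α j k * X α l i))
      = ∑ α, ∑ β, ((X α i j * X β i j) * (X α k l * X β k l)
        + 2 * (X α i j * X α j k * X β k l * X β l i
          - X α i j * X β j k * X α k l * X β l i)) := by
    intro i j k l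
    rw [pow_two, Finset.sum_mul_sum, Finset.sum_mul_sum, Finset.sum_mul_sum]
    simp only [Finset.mul_sum, ← Finset.sum_add_distrib, ← Finset.sum_sub_distrib]
    refine Finset.sum_congr rfl (fun α _ => Finset.sum_congr rfl (fun β _ => ?_))
    ring
  simp only [h]
  rw [comm5]
  refine Finset.sum_congr rfl (fun α _ => ?_)
  rw [comm5]
  refine Finset.sum_congr rfl (fun β _ => ?_)
  have hs : (∑ i, ∑ j, ∑ k, ∑ l : Fin n, ((X α i j * X β i j) * (X α k l * X β k l)
        + 2 * (X α i j * X α j k * X β k l * X β l i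
          - X α i j * X β j k * X α k l * X β l i)))
      = (∑ i, ∑ j, ∑ k, ∑ l : Fin n, (X α i j * X β i j) * (X α k l * X β k l))
        + 2 * ((∑ i, ∑ j, ∑ k, ∑ l : Fin n, X α i j * X α j k * X β k l * X β l i)
          - (∑ i, ∑ j, ∑ k, ∑ l : Fin n, X α i j * X β j k * X α k l * X β l i)) := by
    simp only [Finset.sum_add_distrib, Finset.sum_sub_distrib, ← Finset.mul_sum]
  have q1 := Helper94.HC.sum4 (fun i j => X α i j * X β i j) (fun i j => X α i j * X β i j)
  rw [hs, q1, Helper94.HC.t4, Helper94.HC.t4, Helper94.HC.cq_trace _ _ (hX α) (hX β)]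
  ring

theorem mt_lin (a : Fin m → ℝ) (H : Fin m → Fin n → Fin n → ℝ) :
    Helper35.HC.mt (lin a H) = ∑ α, a α * Helper35.HC.mt (H α) := by
  unfold Helper35.HC.mt lin
  rw [Finset.sum_comm, Finset.sum_div]
  refine Finset.sum_congr rfl (fun α _ => ?_)
  rw [← Finset.mul_sum, mul_div_assoc]

theorem tl_lin (a : Fin m → ℝ) (H : Fin m → Fin n → Fin n → ℝ) (i j : Fin n) :
    tl (lin a H) i j = ∑ α, a α * tl (H α) i j := by
  unfold tl
  rw [mt_lin]
  by_cases h : i = j
  · simp only [h, if_true]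
    unfold lin
    rw [← Finset.sum_sub_distrib]
    refine Finset.sum_congr rfl (fun α _ => ?_)
    ring
  · simp only [h, if_false, sub_zero]
    rfl

theorem inn {e : Fin m → EE N} (he : Orthonormal ℝ e) (c d : Fin m → ℝ) :
    (inner ℝ (∑ α, c α • e α) (∑ α, d α • e α) : ℝ) = ∑ α, c α * d α := by
  rw [he.inner_sum]
  simp

theorem inn1 {e : Fin m → EE N} (he : Orthonormal ℝ e) (c : Fin m → ℝ) (β : Fin m) :
    (inner ℝ (∑ α, c α • e α) (e β) : ℝ) = c β := by
  rw [he.inner_left_fintype]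
  simp

theorem innx {e : Fin m → EE N} {x₀ : EE N} (hx : ∀ α, (inner ℝ (e α) x₀ : ℝ) = 0)
    (c : Fin m → ℝ) : (inner ℝ (∑ α, c α • e α) x₀ : ℝ) = 0 := by
  rw [sum_inner]
  refine Finset.sum_eq_zero (fun α _ => ?_)
  rw [real_inner_smul_left, hx α, mul_zero]

theorem hSQF (hSQG : StSQG) : StSQF := by
  intro n N m hn A H r e x₀ hF M mm hM hmm0
  have hn' : (n : ℝ) ≠ 0 := by exact_mod_cast (by omega : n ≠ 0)
  have hr : r ≠ 0 := hF.r0.ne'
  have he := hF.on
  have hex := hF.ex
  have hxe : ∀ α, (inner ℝ x₀ (e α) : ℝ) = 0 := fun α => by rw [real_inner_comm]; exact hex α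
  have hA : ∀ i j, A i j = (∑ α, H α i j • e α) - (if i = j then r else 0) • x₀ := by
    intro i j; rw [hF.eq]
  -- the mean curvature
  have hHv : Hv A = (n : ℝ) • ((∑ α, Helper35.HC.mt (H α) • e α) - r • x₀) := by
    unfold Hv
    simp only [hA, if_true, Finset.sum_sub_distrib, Finset.sum_const, Finset.card_univ,
      Fintype.card_fin]
    rw [Finset.sum_comm]
    simp only [← Finset.sum_smul]
    have k1 : ∀ α, (∑ i, H α i i) = (n : ℝ) * Helper35.HC.mt (H α) := by
      intro α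
      unfold Helper35.HC.mt; field_simp
    simp only [k1, smul_sub, Finset.smul_sum, smul_smul, ← Nat.cast_smul_eq_nsmul ℝ]
  set μ : EE N := (1 / (n : ℝ)) • Hv A with hμ
  have hμ' : μ = (∑ α, Helper35.HC.mt (H α) • e α) - r • x₀ := by
    rw [hμ, hHv, smul_smul, one_div, inv_mul_cancel₀ hn', one_smul]
  set a : Fin n → Fin n → EE N := fun i j => A i j - (if i = j then (1 : ℝ) else 0) • μ with ha
  have ha' : ∀ i j, a i j = ∑ α, tl (H α) i j • e α := by
    intro i j
    rw [ha]
    simp only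
    rw [hA i j, hμ']
    unfold tl
    by_cases h : i = j
    · simp only [h, if_true, one_smul, sub_smul, Finset.sum_sub_distrib]
      abel
    · simp only [h, if_false, zero_smul, sub_zero]
  have haa : ∀ i j k l, (inner ℝ (a i j) (a k l) : ℝ) = ∑ α, tl (H α) i j * tl (H α) k l := by
    intro i j k l
    rw [ha', ha', inn he]
  have ham : ∀ i j, (inner ℝ (a i j) μ : ℝ) = tl M i j := by
    intro i j
    rw [ha', hμ', inner_sub_right, inn he, real_inner_smul_right, innx hex, hM, tl_lin]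
    rw [mul_zero, sub_zero]
    exact Finset.sum_congr rfl (fun α _ => mul_comm _ _)
  have hmm : ‖μ‖ ^ 2 = mm + r := by
    have hxx : (inner ℝ x₀ x₀ : ℝ) = 1 / r := by rw [real_inner_self_eq_norm_sq]; exact hF.nx
    rw [← real_inner_self_eq_norm_sq, hμ', inner_sub_left, inner_sub_right, inner_sub_right,
      inn he, real_inner_smul_right, real_inner_smul_left, real_inner_smul_left,
      real_inner_smul_right, innx hex, real_inner_comm, innx hex, hxx, hmm0]
    have : ∀ α, Helper35.HC.mt (H α) * Helper35.HC.mt (H α) = Helper35.HC.mt (H α) ^ 2 :=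
      fun α => by ring
    simp only [this]
    field_simp
    ring
  have hsymA : SymV A := by
    intro i j
    rw [hA i j, hA j i]
    congr 1
    · exact Finset.sum_congr rfl (fun α _ => by rw [hF.sy α i j])
    · by_cases h : i = j
      · subst h; rfl
      · rw [if_neg h, if_neg (fun h' => h h'.symm)]
  have hv' : ip0 M M = (∑ i, ∑ j, (inner ℝ (a i j) μ : ℝ) ^ 2) := by
    simp only [ham]
    unfold ip0
    simp only [pow_two]
  obtain ⟨_, _, hYY, hXX, hSq, hZZ, _, _, _, _, _, _⟩ :=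
    hSQG n N hn A hsymA μ a hμ ha (ip0 M M) hv'
  have h4 : ‖μ‖ ^ 4 = (mm + r) ^ 2 := by
    rw [← hmm]; ring
  have hth : thA2 A = ∑ α, ip0 (H α) (H α) := by
    rw [← hXX]
    unfold XX ip0
    rw [Finset.sum_comm]
    have : ∀ i j, ‖a i j‖ ^ 2 = ∑ α, tl (H α) i j * tl (H α) i j := by
      intro i j
      rw [← real_inner_self_eq_norm_sq, haa]
    simp only [this]
    rw [Finset.sum_comm]
    have e1 : ∀ i, (∑ j, ∑ α, tl (H α) i j * tl (H α) i j) =
        ∑ α, ∑ j, tl (H α) i j * tl (H α) i j := fun i => Finset.sum_comm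
    simp only [e1]
    exact Finset.sum_comm
  have hZZ' : ZZ A = n ^ 2 * (ip0 M M + n * (mm + r) ^ 2) := by
    rw [hZZ, h4]
  refine ⟨?_, ?_, by rw [hYY, hmm], hth, hZZ', ?_⟩
  · intro α
    funext i j
    unfold Helper35.HG.kn
    rw [hA, inner_sub_left, inn1 he, real_inner_smul_left, hxe, mul_zero, sub_zero]
  · intro α
    rw [hHv, real_inner_smul_left, inner_sub_left, inn1 he, real_inner_smul_left, hxe, mul_zero,
      sub_zero]
  · rw [hSq, hZZ', h4, Sq_gen (fun α => tl (H α)) (fun α => Helper94.HC.tl_sym (hF.sy α)) a haa]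
    simp only [Helper94.HC.cq_tl]
    unfold ip0
    field_simp
    ring

end Helper70.HG
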